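import Pool.Agent.H84.TI.Stm

set_option autoImplicit false

open Finset

namespace Pool.Agent.H84.TI

theorem window_inj {M : ℕ} {x0 a b : ℕ} (ha : a ∈ Ico x0 (x0 + M)) (hb : b ∈ Ico x0 (x0 + M))
    (h : (a : ZMod M) = (b : ZMod M)) : a = b := by
  rw [mem_Ico] at ha hb
  rw [ZMod.natCast_eq_natCast_iff] at h
  have h1 : (a - x0) + x0 = a := by omega
  have h2 : (b - x0) + x0 = b := by omega
  rw [← h1, ← h2] at h
  have h3 : a - x0 ≡ b - x0 [MOD M] := Nat.ModEq.add_right_cancel' _ h
  unfold Nat.ModEq at h3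
  rw [Nat.mod_eq_of_lt (by omega), Nat.mod_eq_of_lt (by omega)] at h3
  omega

theorem t_CAT : S_CAT := by
  intro M _ B x0 t
  refine Finset.card_nbij (fun x : ℕ => (x : ZMod M) - t) ?_ ?_ ?_
  · intro x hx
    rw [mem_coe, At, mem_filter] at hx
    rw [mem_coe]
    exact hx.2
  · intro x hx y hy h
    rw [mem_coe, At, mem_filter] at hx hy
    exact window_inj hx.1 hy.1 (sub_left_injective h)
  · intro b hb
    rw [mem_coe] at hb
    have hlt : (b + t - (x0 : ZMod M)).val < M := ZMod.val_lt _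
    have he : ((x0 + (b + t - (x0 : ZMod M)).val : ℕ) : ZMod M) = b + t := by
      push_cast
      rw [ZMod.natCast_zmod_val]
      ring
    refine ⟨x0 + (b + t - (x0 : ZMod M)).val, ?_, ?_⟩
    · rw [mem_coe, At, mem_filter, mem_Ico, he]
      refine ⟨by omega, ?_⟩
      simpa using hb
    · simp only
      rw [he]
      ring

theorem t_SDO : S_SDO := by
  intro M _ B x0
  rw [← Finset.card_sigma, sq, ← Finset.card_product]
  refine Finset.card_le_card_of_injOn
    (fun q : (_ : ZMod M) × ℕ => ((q.2 : ZMod M) - q.1, ((q.2 + q.2 : ℕ) : ZMod M) - q.1)) ?_ ?_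
  · rintro ⟨t, a⟩ hq
    rw [mem_coe, mem_sigma, mem_filter, At, mem_filter, mem_filter] at hq
    simp only [coe_product, Set.mem_prod, mem_coe]
    exact ⟨hq.2.1.2, hq.2.2.2⟩
  · rintro ⟨t, a⟩ hq ⟨t', a'⟩ hq' h
    rw [mem_coe, mem_sigma, mem_filter, At, mem_filter, mem_filter] at hq hq'
    simp only [Prod.mk.injEq] at h
    obtain ⟨h1, h2⟩ := h
    push_cast at h2
    have h3 : (a : ZMod M) = (a' : ZMod M) := by
      linear_combination h2 - h1
    have h4 : a = a' := window_inj hq.2.1.1 hq'.2.1.1 h3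
    subst h4
    have h5 : t = t' := by
      linear_combination -h1
    subst h5
    rfl

end Pool.Agent.H84.TI
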