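import Mathlib

set_option autoImplicit false

open Finset

namespace Pool.Agent.H84.TI

/-- Sidon set in `ZMod M`. -/
def Sidon {M : ℕ} (B : Finset (ZMod M)) : Prop :=
  ∀ a ∈ B, ∀ b ∈ B, ∀ c ∈ B, ∀ d ∈ B, a + b = c + d → (a = c ∧ b = d) ∨ (a = d ∧ b = c)

/-- number of `i < l` with `z - i ∈ B` -/
def G {M : ℕ} (B : Finset (ZMod M)) (z : ZMod M) (l : ℕ) : ℕ :=
  ((range l).filter (fun i : ℕ => z - (i : ZMod M) ∈ B)).card

/-- number of pairs `(i, j)` with `i + j < w` and `z - i, z - j ∈ B` -/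
def N2 {M : ℕ} (B : Finset (ZMod M)) (z : ZMod M) (w : ℕ) : ℕ :=
  ((range w ×ˢ range w).filter (fun q : ℕ × ℕ => q.1 + q.2 < w ∧
    z - (q.1 : ZMod M) ∈ B ∧ z - (q.2 : ZMod M) ∈ B)).card

/-- the translate `t + B` placed in the window `[x0, x0 + M)` -/
def At {M : ℕ} (B : Finset (ZMod M)) (x0 : ℕ) (t : ZMod M) : Finset ℕ :=
  (Ico x0 (x0 + M)).filter (fun x : ℕ => (x : ZMod M) - t ∈ B)

/-- the elements of `At` that are a sum of two elements of `At` -/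
def Bad {M : ℕ} (B : Finset (ZMod M)) (x0 : ℕ) (t : ZMod M) : Finset ℕ :=
  (At B x0 t).filter (fun c : ℕ => ∃ a ∈ At B x0 t, ∃ b ∈ At B x0 t, a + b = c)

/-- `A ⊆ Z_n` is `t`-independent -/
def TIndependent (n t : ℕ) (A : Finset (ZMod n)) : Prop :=
  ∀ c : ZMod n → ℤ, 1 ≤ ∑ a ∈ A, |c a| → ∑ a ∈ A, |c a| ≤ t → ∑ a ∈ A, c a • a ≠ 0

/-- the largest size of a `t`-independent subset of `Z_n` -/
noncomputable def tau (n t : ℕ) : ℕ :=
  sSup {k : ℕ | ∃ A : Finset (ZMod n), A.card = k ∧ TIndependent n t A}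

end Pool.Agent.H84.TI
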