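import Pool.Agent.H84.TI.Stm

set_option autoImplicit false

open Finset

namespace Pool.Agent.H84.TI

theorem shift_card {M : ℕ} [NeZero M] (B : Finset (ZMod M)) (i : ZMod M) :
    (univ.filter (fun z : ZMod M => z - i ∈ B)).card = B.card := by
  refine Finset.card_nbij' (fun z => z - i) (fun b => b + i) ?_ ?_ ?_ ?_
  · intro z hz
    simpa using hz
  · intro b hb
    simpa using hb
  · intro z _
    simp
  · intro b _
    simp

theorem t_FIR : S_FIR := by
  intro M _ B u
  have h : ∀ z : ZMod M, G B z u = ∑ i ∈ range u, if z - (i : ZMod M) ∈ B then 1 else 0 := by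
    intro z
    rw [G, Finset.card_filter]
  rw [Finset.sum_congr rfl fun z _ => h z, Finset.sum_comm]
  have h2 : ∀ i ∈ range u, (∑ z : ZMod M, if z - (i : ZMod M) ∈ B then 1 else 0) = B.card := by
    intro i _
    rw [← Finset.card_filter]
    exact shift_card B _
  rw [Finset.sum_congr rfl h2, Finset.sum_const, card_range, smul_eq_mul, mul_comm]

theorem t_SEC : S_SEC := by
  intro M _ B hB u hu
  have h : ∀ z : ZMod M, (G B z u) ^ 2 = ∑ q ∈ range u ×ˢ range u,
      if z - (q.1 : ZMod M) ∈ B ∧ z - (q.2 : ZMod M) ∈ B then 1 else 0 := by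
    intro z
    rw [G, sq, ← Finset.card_product, ← Finset.card_filter]
    congr 1
    ext q
    simp only [mem_product, mem_filter]
    tauto
  rw [Finset.sum_congr rfl fun z _ => h z, Finset.sum_comm]
  have h2 : ∀ q ∈ range u ×ˢ range u,
      (∑ z : ZMod M, if z - (q.1 : ZMod M) ∈ B ∧ z - (q.2 : ZMod M) ∈ B then 1 else 0) ≤
        (if q.1 = q.2 then B.card else 0) + 1 := by
    intro q hq
    rw [mem_product, mem_range, mem_range] at hq
    rw [← Finset.card_filter]
    by_cases he : q.1 = q.2
    · rw [if_pos he, he]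
      simp only [and_self]
      rw [shift_card]
      omega
    · rw [if_neg he, zero_add, Finset.card_le_one]
      intro z hz z' hz'
      rw [mem_filter] at hz hz'
      have hne : (q.1 : ZMod M) ≠ (q.2 : ZMod M) := by
        intro h3
        rw [ZMod.natCast_eq_natCast_iff'] at h3
        rw [Nat.mod_eq_of_lt (by omega), Nat.mod_eq_of_lt (by omega)] at h3
        exact he h3
      rcases hB _ hz.2.1 _ hz'.2.2 _ hz.2.2 _ hz'.2.1 (by ring) with ⟨h4, _⟩ | ⟨h4, _⟩
      · exact absurd (sub_right_injective h4) hne
      · exact sub_left_injective h4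
  refine (Finset.sum_le_sum h2).trans ?_
  rw [Finset.sum_add_distrib, Finset.sum_const, card_product, card_range, smul_eq_mul, mul_one, sq]
  refine Nat.add_le_add_right ?_ _
  rw [Finset.sum_product]
  have h5 : ∀ i ∈ range u, (∑ j ∈ range u, if i = j then B.card else 0) = B.card := by
    intro i hi
    rw [Finset.sum_ite_eq, if_pos hi]
  rw [Finset.sum_congr rfl h5, Finset.sum_const, card_range, smul_eq_mul, mul_comm]

end Pool.Agent.H84.TI
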