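import Pool.Agent.H84.TI.Stm
import Pool.Agent.H84.TI.CAT
import Pool.Agent.H10.TI.SID
import Pool.Agent.H13.TI.FIN
import Pool.Agent.H77.TI.IND
import Pool.Agent.H87.TI.GOO
import Pool.Graph.R_pool_sql_team_ae5b0c61.H55.PNT

set_option autoImplicit false

open Finset Filter

namespace Pool.Agent.H84.TI

/-- if the translate contains `0` then there are no relations `a + b = c` in the window -/
theorem bad_empty {M : ℕ} [NeZero M] (hM : Even M) (B : Finset (ZMod M)) (hB : Sidon B)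
    {b0 : ZMod M} (hb0 : b0 ∈ B) : Bad B (M / 2) (-b0) = ∅ := by
  have hM0 : M ≠ 0 := NeZero.ne M
  obtain ⟨k, hk⟩ := hM
  have key : ∀ x : ℕ, x ∈ At B (M / 2) (-b0) → (x : ZMod M) = 0 → M ≤ x := by
    intro x hx h0
    rw [At, mem_filter, mem_Ico] at hx
    rw [ZMod.natCast_eq_zero_iff] at h0
    exact Nat.le_of_dvd (by omega) h0
  rw [Finset.eq_empty_iff_forall_notMem]
  intro c hc
  rw [Bad, mem_filter] at hc
  obtain ⟨hc, a, ha, b, hb, habc⟩ := hc
  have ha' := ha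
  have hb' := hb
  rw [At, mem_filter, mem_Ico] at hc ha' hb'
  have e : (a : ZMod M) + (b : ZMod M) = (c : ZMod M) := by
    rw [← habc]
    push_cast
    ring
  rcases hB _ ha'.2 _ hb'.2 _ hc.2 _ hb0 (by linear_combination e) with ⟨_, h⟩ | ⟨h, _⟩
  · have h0 : (b : ZMod M) = 0 := by linear_combination h
    have := key b hb h0
    omega
  · have h0 : (a : ZMod M) = 0 := by linear_combination h
    have := key a ha h0
    omega

theorem six {p n : ℕ} (hp : p.Prime) (h3 : 3 ≤ p) (hn : 6 * (p * (p - 1)) ≤ n) :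
    p - 1 ≤ tau n 4 := by
  obtain ⟨B, hBc, hBS⟩ := Pool.Agent.H10.TI.sid hp h3
  have hM : 0 < p * (p - 1) := Nat.mul_pos (by omega) (by omega)
  haveI : NeZero (p * (p - 1)) := ⟨hM.ne'⟩
  have hne : B.Nonempty := by
    rw [← Finset.card_pos, hBc]
    omega
  obtain ⟨b0, hb0⟩ := hne
  have hG : S_GOO := H87.TI.goo Pool.Agent.H77.TI.ind t_CAT
  have hgoo := hG (M := p * (p - 1)) (n := n) (Nat.even_mul_pred_self p) hn B hBS (-b0)
  rw [bad_empty (Nat.even_mul_pred_self p) B hBS hb0, hBc] at hgoo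
  simpa using hgoo

theorem low6 {ε : ℝ} (hε : 0 < ε) :
    ∀ᶠ n : ℕ in atTop, 1 / √6 - ε ≤ (tau n 4 : ℝ) / √(n : ℝ) := by
  set L : ℝ := 1 / √6 with hL
  have h6 : (0 : ℝ) < √6 := by positivity
  have hLpos : 0 < L := by positivity
  have hLsq : L ^ 2 = 1 / 6 := by
    rw [hL, div_pow, Real.sq_sqrt (by norm_num)]
    norm_num
  set δ : ℝ := min (ε / 2) (L / 2) with hδ
  have hδ0 : 0 < δ := by
    rw [hδ]
    exact lt_min (by linarith) (by linarith)
  have hδ1 : δ ≤ ε / 2 := min_le_left _ _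
  have hδ2 : δ ≤ L / 2 := min_le_right _ _
  have hα : 0 < L - δ := by linarith
  have hsq : Tendsto (fun n : ℕ => √(n : ℝ)) atTop atTop :=
    Real.tendsto_sqrt_atTop.comp tendsto_natCast_atTop_atTop
  have hpr := Pool.Agent.H55.PNT.exists_prime_ap (q := 1) (a := 1) isUnit_one
    (α := L - δ) (β := L) hα (by linarith)
  have hev1 := hsq.eventually hpr
  have hev2 := hsq.eventually (eventually_ge_atTop ((3 : ℝ) / (L - δ)))
  have hev3 := hsq.eventually (eventually_ge_atTop (2 / ε))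
  have hev4 := hsq.eventually (eventually_gt_atTop (0 : ℝ))
  filter_upwards [hev1, hev2, hev3, hev4] with n h1 h2 h3 h4
  obtain ⟨p, hp, -, hp1, hp2⟩ := h1
  have h5 : (3 : ℝ) ≤ (L - δ) * √(n : ℝ) := by
    rw [div_le_iff₀ hα] at h2
    linarith
  have hp3 : 3 ≤ p := by
    have : ((3 : ℕ) : ℝ) ≤ (p : ℝ) := by
      push_cast
      linarith
    exact_mod_cast this
  have hn : 6 * (p * (p - 1)) ≤ n := by
    have h6' : (6 : ℝ) * ((p : ℝ) * p) ≤ n := by
      have h7 : (p : ℝ) * p ≤ (L * √(n : ℝ)) * (L * √(n : ℝ)) :=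
        mul_le_mul hp2 hp2 (by positivity) (by positivity)
      have h8 : (L * √(n : ℝ)) * (L * √(n : ℝ)) = L ^ 2 * (√(n : ℝ)) ^ 2 := by ring
      rw [h8, hLsq, Real.sq_sqrt (by positivity)] at h7
      linarith
    have h7 : 6 * (p * p) ≤ n := by exact_mod_cast h6'
    have h8 : p * (p - 1) ≤ p * p := Nat.mul_le_mul_left p (by omega)
    omega
  have h7 : ((p - 1 : ℕ) : ℝ) ≤ (tau n 4 : ℝ) := by exact_mod_cast six hp hp3 hn
  rw [Nat.cast_sub (by omega)] at h7
  push_cast at h7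
  rw [le_div_iff₀ h4]
  have h11 : 1 ≤ ε / 2 * √(n : ℝ) := by
    rw [div_le_iff₀ hε] at h3
    linarith
  have h13 : L - ε / 2 ≤ L - δ := by linarith
  have h14 := mul_le_mul_of_nonneg_right h13 h4.le
  nlinarith

theorem fin6 : 1 / √6 ≤ liminf (fun n : ℕ => (tau n 4 : ℝ) / √(n : ℝ)) atTop := by
  refine le_of_forall_sub_le fun ε hε => ?_
  refine le_liminf_of_le ?_ (low6 hε)
  refine IsBoundedUnder.isCoboundedUnder_ge ⟨2, ?_⟩
  rw [eventually_map]
  filter_upwards [eventually_gt_atTop 0] with n hn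
  exact Pool.Agent.H13.TI.ratio_le hn

end Pool.Agent.H84.TI
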