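import Pool.Agent.H84.TI.Defs

set_option autoImplicit false

open Finset Filter

namespace Pool.Agent.H84.TI

/-- SID. The Ruzsa set: Let `g` generate `(ZMod p)ˣ`, `B` = the `x` mod `p (p-1)` with `x ≡ i mod p-1`,
`x ≡ g^i mod p`, `i = 0..p-2` (CRT).  `x_i + x_j = x_k + x_l`: the sums `g^i + g^j` and the products
`g^(i+j)` agree in the field `ZMod p` so `{g^i, g^j} = {g^k, g^l}`.  ADAPT the library proof
`Pool/Graph/R_seed8/Helper591/Five/Sidon.lean` (theorem `ruzsa`, lemma `multiset_two`), fetch with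
`team-store fetch /workdir/pool Pool/Graph/R_seed8/Helper591/Five/Sidon.lean`. -/
def S_SID : Prop := ∀ {p : ℕ}, p.Prime → 3 ≤ p →
    ∃ B : Finset (ZMod (p * (p - 1))), B.card = p - 1 ∧ Sidon B

/-- FIR. Swap the sums: for each fixed `i < u`, `#{z : z - i ∈ B} = |B|`. -/
def S_FIR : Prop := ∀ {M : ℕ} [NeZero M] (B : Finset (ZMod M)) (u : ℕ),
    ∑ z : ZMod M, G B z u = B.card * u

/-- SEC. `(G B z u)^2 = #{(i,j) ∈ range u × range u : z - i ∈ B, z - j ∈ B}`. Swap the sums: for `i = j` the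
number of `z` is `|B|` (total `|B| u`); for `i ≠ j` (so `(i : ZMod M) ≠ j` since `u ≤ M`) at most one `z`:
if `z, z'` both work then `(z - i) + (z' - j) = (z - j) + (z' - i)`, and Sidon gives `z - i = z - j` (no) or
`z - i = z' - i`, i.e. `z = z'`.  Total `≤ u^2`. -/
def S_SEC : Prop := ∀ {M : ℕ} [NeZero M] (B : Finset (ZMod M)), Sidon B → ∀ u : ℕ,
    u ≤ M → ∑ z : ZMod M, (G B z u) ^ 2 ≤ B.card * u + u ^ 2

/-- WIN. Injection of the pairs `(i, j)`, `i < l`, `z - i ∈ B`, `j < u` into the pairs `(s, j)`, `s < l + u`,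
`j < u`, `(z + u - s) - j ∈ B`: `s = u + i - j` (then `z + u - s - j = z - i`). -/
def S_WIN : Prop := ∀ {M : ℕ} [NeZero M] (B : Finset (ZMod M)) (z : ZMod M) (l u : ℕ),
    G B z l * u ≤ ∑ s ∈ range (l + u), G B (z + (u : ZMod M) - (s : ZMod M)) u

/-- EXP. Put `m = |B| u / M` (real), `F s = G B (z + u - s) u`. By WIN `G B z l * u ≤ Σ_{s<l+u} F s
= (l+u) m + Σ (F s - m) ≤ (l+u) m + √(l+u) √(Σ (F s - m)^2)` (Cauchy-Schwarz, `sq_sum_le_card_mul_sum_sq`).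
As `l + u ≤ M`, `s ↦ z + u - s` is injective on `range (l+u)`, so `Σ_{s<l+u} (F s - m)^2 ≤
Σ_{x : ZMod M} (G B x u - m)^2 = Σ G^2 - 2 m |B| u + M m^2 = Σ G^2 - |B|^2 u^2 / M
≤ |B| u + u^2 - |B|^2 u^2 / M` by FIR and SEC. -/
def S_EXP : Prop := ∀ {M : ℕ} [NeZero M] (B : Finset (ZMod M)), Sidon B → ∀ (z : ZMod M)
    (l u : ℕ), l + u ≤ M →
    (G B z l : ℝ) * u ≤ ((l : ℝ) + u) * ((B.card : ℝ) * u / M) +
      √(((l : ℝ) + u) * ((B.card : ℝ) * u + (u : ℝ) ^ 2 - (B.card : ℝ) ^ 2 * (u : ℝ) ^ 2 / M))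

/-- EQU. From EXP with `M = p (p-1)`, `|B| = p - 1`, `u = ⌊δ p^2⌋`, `δ = min (1/6) (ε/2)`. Then `l + u ≤ M ≤ p^2`
(since `δ p^2 ≤ p^2/6 ≤ p (p-1)/3`), `|B| u / M = u / p`, `u^2 - |B|^2 u^2 / M = u^2 / p`; dividing by `u`:
`G ≤ (l+u)/p + √((l+u) ((p-1)/u + 1/p)) ≤ l/p + δ p + √(p^2 (2/(δ p) + 1/p)) = l/p + δ p + √(p (2/δ + 1))
≤ l/p + ε p` for `p` large (`u ≥ δ p^2 / 2 ≥ 1`). -/
def S_EQU : Prop := ∀ {ε : ℝ}, 0 < ε → ∃ P : ℕ, ∀ p : ℕ, P ≤ p → 2 ≤ p →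
    ∀ B : Finset (ZMod (p * (p - 1))), Sidon B → B.card = p - 1 →
      ∀ (z : ZMod (p * (p - 1))) (l : ℕ), 3 * l ≤ 2 * (p * (p - 1)) →
        (G B z l : ℝ) ≤ (l : ℝ) / p + ε * p

/-- PAI. `N2 B z w ≤ Σ_{b < w, z - b ∈ B} G B z (w - b)` (for `a + b < w` we have `a < w - b`)
`≤ (1/p) Σ_b (w - b) + η p G B z w`; and `Σ_{b<w, z-b∈B} (w - b) = Σ_{s < w} G B z (s + 1)` (`w - b` is the number
of `s` with `b ≤ s < w`; prove it by swapping the sums) `≤ w (w+1)/(2p) + η p w`; `G B z w ≤ w/p + η p`.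
So `N2 ≤ w (w+1)/(2 p^2) + η w + η w + η^2 p^2`, and `w ≤ p^2`. -/
def S_PAI : Prop := ∀ {M : ℕ} [NeZero M] (B : Finset (ZMod M)) (p η : ℝ), 1 ≤ p → 0 ≤ η →
    ∀ w : ℕ, (w : ℝ) ≤ p ^ 2 →
    (∀ (z : ZMod M) (l : ℕ), l ≤ w → (G B z l : ℝ) ≤ (l : ℝ) / p + η * p) → ∀ z : ZMod M,
    (N2 B z w : ℝ) ≤ (w : ℝ) ^ 2 / (2 * p ^ 2) + 1 + 2 * η * p ^ 2 + η ^ 2 * p ^ 2

/-- CAT. Each residue class mod `M` has exactly one representative in `[x0, x0 + M)`. -/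
def S_CAT : Prop := ∀ {M : ℕ} [NeZero M] (B : Finset (ZMod M)) (x0 : ℕ) (t : ZMod M),
    (At B x0 t).card = B.card

/-- TWO. Each `c ∈ Bad` is `a + b`; if `a ≠ b` then `(a,b)` and `(b,a)` are two pairs over `c`; if `a = b` then there
is one pair and one element of the second set.  (Fibre of `q ↦ q.1 + q.2` plus fibre of `a ↦ a + a` over `c`
has at least 2 elements; sum over `c`, `Finset.card_eq_sum_card_fiberwise`.) -/
def S_TWO : Prop := ∀ {M : ℕ} [NeZero M] (B : Finset (ZMod M)) (x0 : ℕ) (t : ZMod M),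
    2 * (Bad B x0 t).card ≤
      ((At B x0 t ×ˢ At B x0 t).filter (fun q : ℕ × ℕ => q.1 + q.2 ∈ At B x0 t)).card +
      ((At B x0 t).filter (fun a : ℕ => a + a ∈ At B x0 t)).card

/-- SPA. Injection `(t, a, b) ↦ (a + b - t, a - x0, b - x0)` of the sigma set into
`B.sigma (N2-pairs)`: with `c = a + b - t ∈ B` and `z = c - x0` we have `z - (a - x0) = b - t ∈ B`,
`z - (b - x0) = a - t ∈ B`, and `(a - x0) + (b - x0) < M - x0` because `a + b < x0 + M`. -/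
def S_SPA : Prop := ∀ {M : ℕ} [NeZero M] (B : Finset (ZMod M)) (x0 : ℕ), x0 ≤ M →
    ∑ t : ZMod M, ((At B x0 t ×ˢ At B x0 t).filter
      (fun q : ℕ × ℕ => q.1 + q.2 ∈ At B x0 t)).card ≤
      ∑ b ∈ B, N2 B (b - (x0 : ZMod M)) (M - x0)

/-- SDO. Injection `(t, a) ↦ (a - t, a + a - t) ∈ B × B` (`a` mod `M` is the difference, and `a ∈ [x0, x0 + M)`). -/
def S_SDO : Prop := ∀ {M : ℕ} [NeZero M] (B : Finset (ZMod M)) (x0 : ℕ),
    ∑ t : ZMod M, ((At B x0 t).filter (fun a : ℕ => a + a ∈ At B x0 t)).card ≤ B.card ^ 2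

/-- IND. Reduction of `4`-independence in `Z_n` to explicit relations. The cast is injective on `A` (elements `< n`),
so `c : ZMod n → ℤ` restricted to the image is a function on `A` with `1 ≤ Σ |c_a| ≤ 4`. Let `P`, `N` be the
multisets of positive and negative parts (`P = Σ (c a).toNat • {a}`, `N = Σ (-c a).toNat • {a}`, disjoint supports,
`1 ≤ |P| + |N| ≤ 4`), `V = Σ c_a a = P.sum - N.sum` (integer). If `Σ c_a • (a : ZMod n) = 0` then `n ∣ V`, and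
`|V| ≤ max (P.sum) (N.sum) < n` (at most 4 elements each `< n/4`; at least one of `P, N` nonempty), so `V = 0`,
`P.sum = N.sum`. Cases of `(|P|,|N|)` up to swap: `(k,0)`: the sum is positive; `(1,1)`: `a = b` contradicts disjoint
supports; `(2,1)`: `h21`; `(3,1)`: `h31`; `(2,2)`: `h22` contradicts disjointness.  (Split if you like.) -/
def S_IND : Prop := ∀ {n : ℕ} (A : Finset ℕ), (∀ a ∈ A, 0 < a) → (∀ a ∈ A, 4 * a < n) →
    (∀ a ∈ A, ∀ b ∈ A, ∀ c ∈ A, a + b ≠ c) →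
    (∀ a ∈ A, ∀ b ∈ A, ∀ c ∈ A, ∀ d ∈ A, a + b + c ≠ d) →
    (∀ a ∈ A, ∀ b ∈ A, ∀ c ∈ A, ∀ d ∈ A, a + b = c + d → (a = c ∧ b = d) ∨ (a = d ∧ b = c)) →
    TIndependent n 4 (A.image (Nat.cast : ℕ → ZMod n))

/-- GOO. `A = At B (M/2) t \ Bad`, elements in `[M/2, 3M/2)`, `M ≥ 2` even, `n ≥ 6 M`: `4 a ≤ 6 M - 4 < n`, `a > 0`;
`a + b ≠ c` by the definition of `Bad`; `a + b + c ≥ 3M/2 > d`; Sidon: `a + b = c + d` gives in `ZMod M`
`(a-t) + (b-t) = (c-t) + (d-t)`, so e.g. `a ≡ c` mod `M` and `a = c` as the window has length `M`. Then IND;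
the cast is injective on `A` so the image has `|A| ≥ |At| - |Bad| = |B| - |Bad|` elements (CAT), and
`le_csSup` (the set is bounded by `n`, `Finset.card_le_univ`). -/
def S_GOO : Prop := ∀ {M n : ℕ} [NeZero M], Even M → 6 * M ≤ n → ∀ B : Finset (ZMod M),
    Sidon B → ∀ t : ZMod M, B.card ≤ tau n 4 + (Bad B (M / 2) t).card

/-- EXT. `M = p (p-1)` (even), `x0 = M/2`, `w = M - x0 = M/2 ≤ p^2/2`. By TWO, SPA, SDO, and PAI with `η` from EQU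
(`3 l ≤ 2 M` holds for `l ≤ w`): `Σ_t 2 |Bad_t| ≤ (p-1)(p^2/8 + 1 + 2 η p^2 + η^2 p^2) + (p-1)^2`, so for some `t`
`2 |Bad_t| ≤ p/8 + 1/p + 2 η p + η^2 p + 1 ≤ p/8 + 2 ε p` for `η = min (ε/4) 1` and `p` large. -/
def S_EXT : Prop := ∀ {ε : ℝ}, 0 < ε → ∃ P : ℕ, ∀ p : ℕ, P ≤ p → 3 ≤ p →
    ∀ B : Finset (ZMod (p * (p - 1))), Sidon B → B.card = p - 1 →
      ∃ t : ZMod (p * (p - 1)), ((Bad B (p * (p - 1) / 2) t).card : ℝ) ≤ (1 / 16 + ε) * p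

/-- LOW. For `n` large choose (library PNT, `Pool/Graph/R_pool_sql_team_ae5b0c61/H55/PNT.lean` line 167, with `q = 1`
or `2`) a prime `p ∈ (α √n, β √n)`, `α < β < 1/√6` close to `1/√6`; then `6 p (p-1) ≤ n`, and SID, EXT, GOO
give `tau n 4 ≥ (p - 1) - (1/16 + ε') p ≥ (15/16 - ε') α √n - 1`. -/
def S_LOW : Prop := ∀ {ε : ℝ}, 0 < ε →
    ∀ᶠ n : ℕ in atTop, 15 / (16 * √6) - ε ≤ (tau n 4 : ℝ) / √(n : ℝ)

/-- FIN. From LOW (and `0 ≤ tau n 4 / √n ≤ 1`-type bound above: `tau n 4 ≤` ... only `IsBoundedUnder (≥)` and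
cobounded are needed; a bound above: by `tau n 4 ^ 2 ≤ 4 n`-type counting; library
`Pool/Graph/R_seed8/Results/MP_364e44_co/NoLimitFive.lean` has `ratio_le_one` for 5; for 4: the sums `a + b`,
differences `a - b` (`a ≠ b`) are distinct, so `|A| (|A| - 1) ≤ n`). -/
def S_FIN : Prop :=
    15 / (16 * √6) ≤ liminf (fun n : ℕ => (tau n 4 : ℝ) / √(n : ℝ)) atTop ∧
    1 / √8 < 15 / (16 * √6)

end Pool.Agent.H84.TI
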